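import Pool.Agent.Helper20.KS.Stm

/-!
# The counting step of project KS

The arithmetic Kakeya statement, applied to the digits of the directions, gives many points of the set in
the heights `(h + M j) / R`.
-/

set_option autoImplicit false

open Finset Filter Topology
open scoped Classical

namespace Pool.Agent.Helper15.KS

open Pool.Agent.Helper81.PK Pool.Agent.Helper20.KS

/-- The value of the digits `v` in the base `M`. -/
def phi (M n : ℕ) (v : Fin n → ℤ) : ℤ := ∑ k, v k * (M : ℤ) ^ (k : ℕ)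

lemma phi_add (M n : ℕ) (u v : Fin n → ℤ) (j : ℤ) :
    phi M n (fun k => u k + j * v k) = phi M n u + j * phi M n v := by
  unfold phi
  rw [Finset.mul_sum, ← Finset.sum_add_distrib]
  refine Finset.sum_congr rfl fun k _ => ?_
  ring

lemma phi_inj (M n : ℕ) (u v : Fin n → ℕ) (hu : ∀ k, u k < M) (hv : ∀ k, v k < M)
    (h : phi M n (fun k => (u k : ℤ)) = phi M n (fun k => (v k : ℤ))) : u = v := by
  have h1 : ((finFunctionFinEquiv (fun k => (⟨u k, hu k⟩ : Fin M))) : ℕ)
      = ((finFunctionFinEquiv (fun k => (⟨v k, hv k⟩ : Fin M))) : ℕ) := by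
    rw [finFunctionFinEquiv_apply, finFunctionFinEquiv_apply]
    have h0 : ((∑ k : Fin n, u k * M ^ (k : ℕ) : ℕ) : ℤ)
        = ((∑ k : Fin n, v k * M ^ (k : ℕ) : ℕ) : ℤ) := by
      push_cast
      exact h
    exact_mod_cast h0
  have h2 := finFunctionFinEquiv.injective (Fin.ext h1)
  funext k
  have h3 := congrFun h2 k
  simpa using h3

lemma card_le (M n : ℕ) (D : Finset (Fin n → ℕ)) (hD : ∀ v ∈ D, ∀ k, v k < M) :
    D.card ≤ M ^ n := by
  have h : D ⊆ Fintype.piFinset (fun _ : Fin n => Finset.range M) := by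
    intro v hv
    rw [Fintype.mem_piFinset]
    intro k
    exact Finset.mem_range.2 (hD v hv k)
  calc D.card ≤ (Fintype.piFinset (fun _ : Fin n => Finset.range M)).card := Finset.card_le_card h
    _ = M ^ n := by rw [Fintype.card_piFinset]; simp

lemma slice (θ ε η' : ℝ) (n₀ : ℕ)
    (hK : ∀ (D : Finset ℤ) (x : ℤ → ℤ), n₀ ≤ D.card →
      ∃ j : ℕ, (j : ℝ) ≤ (D.card : ℝ) ^ η' ∧
        (D.card : ℝ) ^ (θ - ε) ≤ ((D.image fun d => x d + j * d).card : ℝ))
    (M n : ℕ) (D : Finset (Fin n → ℕ)) (hD : ∀ v ∈ D, ∀ k, v k < M) (hn : n₀ ≤ D.card)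
    (X : (Fin n → ℕ) → Fin n → ℤ) :
    ∃ j : ℕ, (j : ℝ) ≤ (D.card : ℝ) ^ η' ∧
      (D.card : ℝ) ^ (θ - ε) ≤
        ((D.image fun v => fun k => X v k + (j : ℤ) * (v k : ℤ)).card : ℝ) := by
  set f : (Fin n → ℕ) → ℤ := fun v => phi M n (fun k => (v k : ℤ)) with hf
  have hinj : Set.InjOn f (D : Set (Fin n → ℕ)) :=
    fun u hu v hv h => phi_inj M n u v (hD u hu) (hD v hv) h
  have hc : (D.image f).card = D.card := Finset.card_image_of_injOn hinj
  obtain ⟨j, hj, hj2⟩ := hK (D.image f)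
    (fun d => phi M n (X (Function.invFunOn f (D : Set (Fin n → ℕ)) d))) (by rw [hc]; exact hn)
  rw [hc] at hj hj2
  refine ⟨j, hj, hj2.trans ?_⟩
  have e : (D.image f).image
      (fun d => phi M n (X (Function.invFunOn f (D : Set (Fin n → ℕ)) d)) + (j : ℤ) * d)
      = (D.image fun v => fun k => X v k + (j : ℤ) * (v k : ℤ)).image (phi M n) := by
    rw [Finset.image_image, Finset.image_image]
    refine Finset.image_congr fun v hv => ?_
    simp only [Function.comp_apply]
    rw [hinj.leftInvOn_invFunOn hv, phi_add]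
  rw [e]
  exact_mod_cast Finset.card_image_le

theorem cnt : S_CNT := by
  intro θ hθ hθ1 hK n hn w W hw hW ε hε hεθ η hη hη1
  have hn0 : (0 : ℝ) < n := by exact_mod_cast hn
  obtain ⟨n₀, hn₀⟩ := hK ε hε (η / (2 * n)) (by positivity)
  have ev1 : ∀ᶠ R : ℕ in atTop, W * n₀ + 2 ≤ (R : ℝ) ^ (1 - η) :=
    ((tendsto_rpow_atTop (by linarith)).comp tendsto_natCast_atTop_atTop).eventually_ge_atTop _
  have ev2 : ∀ᶠ R : ℕ in atTop, 2 / w ≤ (R : ℝ) ^ (η / 2) :=
    ((tendsto_rpow_atTop (by linarith)).comp tendsto_natCast_atTop_atTop).eventually_ge_atTop _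
  obtain ⟨R₀, hR₀⟩ := eventually_atTop.1 (ev1.and (ev2.and (eventually_ge_atTop 1)))
  refine ⟨R₀, fun R hR D b hD hDc => ?_⟩
  obtain ⟨h1, h2, h3⟩ := hR₀ R hR
  have hR1 : (1 : ℝ) ≤ R := by exact_mod_cast h3
  have hR0 : (0 : ℝ) < R := by linarith
  have hWn : 0 ≤ W * n₀ := by positivity
  set Q : ℝ := (R : ℝ) ^ (1 - η) with hQ
  set M : ℕ := ⌊Q⌋₊ with hM
  have hQ2 : 2 ≤ Q := by linarith
  have hMQ : (M : ℝ) ≤ Q := Nat.floor_le (by linarith)
  have hQM : Q < M + 1 := Nat.lt_floor_add_one Q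
  have hM1 : (1 : ℝ) ≤ M := by linarith
  have hM0 : (0 : ℝ) < M := by linarith
  have hQ2M : Q ≤ 2 * M := by linarith
  have hMn : (M : ℝ) ≤ (M : ℝ) ^ n := le_self_pow₀ hM1 (by omega)
  have hDn : n₀ ≤ D.card := by
    have h4 : W * n₀ ≤ W * D.card := by linarith
    have h5 := le_of_mul_le_mul_left h4 (by linarith)
    exact_mod_cast h5
  have hDM : (D.card : ℝ) ≤ (M : ℝ) ^ n := by exact_mod_cast card_le M n D hD
  have hDpow : (D.card : ℝ) ^ (η / (2 * n)) ≤ (R : ℝ) ^ (η / 2) := by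
    calc (D.card : ℝ) ^ (η / (2 * n)) ≤ (Q ^ n) ^ (η / (2 * n)) :=
          Real.rpow_le_rpow (Nat.cast_nonneg _)
            (hDM.trans (pow_le_pow_left₀ (by linarith) hMQ n)) (by positivity)
      _ = (R : ℝ) ^ ((1 - η) * (η / 2)) := by
          rw [hQ, ← Real.rpow_natCast, ← Real.rpow_mul hR0.le, ← Real.rpow_mul hR0.le]
          congr 1
          field_simp
      _ ≤ (R : ℝ) ^ (η / 2) := Real.rpow_le_rpow_of_exponent_le hR1 (by nlinarith)
  have hs := fun h : ℕ => slice θ ε (η / (2 * n)) n₀ hn₀ M n D hD hDn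
    (fun v k => ⌊(R : ℝ) * b v k + h * (v k / M)⌋)
  choose j hj1 hj2 using hs
  let g : ℕ → (Fin n → ℕ) → (Fin n → ℤ) × ℤ := fun h v =>
    (fun k => ⌊(R : ℝ) * b v k + h * (v k / M)⌋ + (j h : ℤ) * (v k : ℤ), (h : ℤ) + M * j h)
  refine ⟨(Finset.range M).biUnion fun h => D.image (g h), ?_, ?_⟩
  · have hcard : ((Finset.range M).biUnion fun h => D.image (g h)).card
        = ∑ h ∈ Finset.range M, (D.image (g h)).card := by
      apply Finset.card_biUnion
      intro h hh h' hh' hne
      have hh1 : h < M := by simpa using hh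
      have hh2 : h' < M := by simpa using hh'
      have key : Disjoint (D.image (g h)) (D.image (g h')) := by
        rw [Finset.disjoint_left]
        intro z hz hz'
        obtain ⟨v, _, e1⟩ := Finset.mem_image.1 hz
        obtain ⟨v', _, e2⟩ := Finset.mem_image.1 hz'
        have e3 : (h' : ℤ) + M * j h' = h + M * j h := by
          have := congrArg Prod.snd (e2.trans e1.symm)
          simpa [g] using this
        have e4 : h' + M * j h' = h + M * j h := by exact_mod_cast e3
        have e5 := congrArg (· % M) e4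
        simp only [Nat.add_mul_mod_self_left] at e5
        rw [Nat.mod_eq_of_lt hh1, Nat.mod_eq_of_lt hh2] at e5
        exact hne e5.symm
      exact key
    have hpos : 0 ≤ (D.card : ℝ) ^ (θ - ε) := Real.rpow_nonneg (Nat.cast_nonneg _) _
    have hlow : (M : ℝ) * (D.card : ℝ) ^ (θ - ε)
        ≤ (((Finset.range M).biUnion fun h => D.image (g h)).card : ℝ) := by
      rw [hcard, Nat.cast_sum]
      calc (M : ℝ) * (D.card : ℝ) ^ (θ - ε)
          = ∑ _h ∈ Finset.range M, (D.card : ℝ) ^ (θ - ε) := by simp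
        _ ≤ ∑ h ∈ Finset.range M, ((D.image (g h)).card : ℝ) := by
          refine Finset.sum_le_sum fun h _ => (hj2 h).trans ?_
          have e : (D.image fun v => fun k =>
              ⌊(R : ℝ) * b v k + h * (v k / M)⌋ + (j h : ℤ) * (v k : ℤ))
              = (D.image (g h)).image Prod.fst := by
            rw [Finset.image_image]
            rfl
          rw [e]
          exact_mod_cast Finset.card_image_le
    have ht : 0 < θ - ε := by linarith
    have ht1 : θ - ε ≤ 1 := by linarith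
    have hlhs : (R : ℝ) ^ ((1 - η) * (1 + n * (θ - ε)))
        ≤ 2 ^ (n + 1) * W * (M * (D.card : ℝ) ^ (θ - ε)) := by
      calc (R : ℝ) ^ ((1 - η) * (1 + n * (θ - ε))) = Q ^ (1 + n * (θ - ε)) := by
            rw [hQ, ← Real.rpow_mul hR0.le]
        _ ≤ (2 * M) ^ (1 + n * (θ - ε)) :=
            Real.rpow_le_rpow (by linarith) hQ2M (by positivity)
        _ = (2 * M) * (2 ^ ((n : ℝ) * (θ - ε)) * ((M : ℝ) ^ n) ^ (θ - ε)) := by
            rw [Real.rpow_add (by positivity), Real.rpow_one,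
              Real.mul_rpow (by norm_num) hM0.le, ← Real.rpow_natCast (M : ℝ) n,
              ← Real.rpow_mul hM0.le]
        _ ≤ (2 * M) * (2 ^ (n : ℝ) * (W * (D.card : ℝ) ^ (θ - ε))) := by
            have a1 : (2 : ℝ) ^ ((n : ℝ) * (θ - ε)) ≤ 2 ^ (n : ℝ) :=
              Real.rpow_le_rpow_of_exponent_le (by norm_num) (by nlinarith)
            have a2 : ((M : ℝ) ^ n) ^ (θ - ε) ≤ W * (D.card : ℝ) ^ (θ - ε) := by
              calc ((M : ℝ) ^ n) ^ (θ - ε) ≤ (W * D.card) ^ (θ - ε) :=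
                    Real.rpow_le_rpow (by positivity) hDc ht.le
                _ = W ^ (θ - ε) * (D.card : ℝ) ^ (θ - ε) :=
                    Real.mul_rpow (by linarith) (Nat.cast_nonneg _)
                _ ≤ W * (D.card : ℝ) ^ (θ - ε) := by
                    refine mul_le_mul_of_nonneg_right ?_ hpos
                    calc W ^ (θ - ε) ≤ W ^ (1 : ℝ) := Real.rpow_le_rpow_of_exponent_le hW ht1
                      _ = W := Real.rpow_one W
            refine mul_le_mul_of_nonneg_left ?_ (by positivity)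
            exact mul_le_mul a1 a2 (by positivity) (by positivity)
        _ = 2 ^ (n + 1) * W * (M * (D.card : ℝ) ^ (θ - ε)) := by
            rw [Real.rpow_natCast]
            ring
    refine hlhs.trans (mul_le_mul_of_nonneg_left hlow (by positivity))
  · intro z hz
    simp only [Finset.mem_biUnion, Finset.mem_image, Finset.mem_range] at hz
    obtain ⟨h, hh, v, hv, rfl⟩ := hz
    have hh' : (h : ℝ) ≤ M := by exact_mod_cast hh.le
    refine ⟨v, hv, ((h : ℝ) + M * j h) / R, ⟨by positivity, ?_⟩, ?_, ?_⟩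
    · rw [div_le_iff₀ hR0]
      have b1 : (j h : ℝ) ≤ (R : ℝ) ^ (η / 2) := (hj1 h).trans hDpow
      have b0 : (1 : ℝ) ≤ (R : ℝ) ^ (η / 2) := Real.one_le_rpow hR1 (by linarith)
      have b2 : 2 ≤ w * (R : ℝ) ^ (η / 2) := by
        rw [div_le_iff₀ hw] at h2
        linarith
      have b3 : (h : ℝ) + M * j h ≤ Q * (2 * (R : ℝ) ^ (η / 2)) := by
        have c1 : (M : ℝ) * j h ≤ Q * (R : ℝ) ^ (η / 2) :=
          mul_le_mul hMQ b1 (Nat.cast_nonneg _) (by linarith)
        have c2 : (h : ℝ) ≤ Q * (R : ℝ) ^ (η / 2) := by nlinarith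
        linarith
      have b4 : Q * (R : ℝ) ^ (η / 2) * (R : ℝ) ^ (η / 2) = R := by
        rw [hQ, ← Real.rpow_add hR0, ← Real.rpow_add hR0]
        have : (1 - η + η / 2 + η / 2) = 1 := by ring
        rw [this, Real.rpow_one]
      have b5 : 0 ≤ Q * (R : ℝ) ^ (η / 2) := by positivity
      calc (h : ℝ) + M * j h ≤ Q * (2 * (R : ℝ) ^ (η / 2)) := b3
        _ = Q * (R : ℝ) ^ (η / 2) * 2 := by ring
        _ ≤ Q * (R : ℝ) ^ (η / 2) * (w * (R : ℝ) ^ (η / 2)) := mul_le_mul_of_nonneg_left b2 b5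
        _ = w * (Q * (R : ℝ) ^ (η / 2) * (R : ℝ) ^ (η / 2)) := by ring
        _ = w * R := by rw [b4]
    · intro k
      have e : (R : ℝ) * (b v k + ((h : ℝ) + M * j h) / R * (v k / M))
          = ((R : ℝ) * b v k + h * (v k / M)) + ((j h * v k : ℕ) : ℝ) := by
        push_cast
        field_simp
        ring
      rw [e, Int.floor_add_natCast]
      simp only [g]
      push_cast
      ring
    · have e : (R : ℝ) * (((h : ℝ) + M * j h) / R) = ((h + M * j h : ℕ) : ℝ) := by
        push_cast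
        field_simp
      rw [e, Int.floor_natCast]
      simp only [g]
      push_cast
      ring

end Pool.Agent.Helper15.KS
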